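import Pool.Agent.N979.P1.Stm

/-!
# Project P1 (helper979), part SEC: integrals over the sectors of the circle (helper250)
-/

set_option autoImplicit false

open MeasureTheory Metric Set Filter Topology InnerProductGeometry Matrix
open scoped ENNReal Pointwise

namespace Pool.Agent.N250.P1SEC

open Pool.Agent.H241R3.FV Pool.Agent.N526.CP Pool.Agent.N979.P1

/-! ### The measure of the circle -/

/-- the point of the circle at the angle `u` -/
noncomputable def ci (u : ℝ) : Sph 2 := ⟨!₂[Real.cos u, Real.sin u], by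
  rw [mem_sphere_zero_iff_norm, EuclideanSpace.norm_eq]
  simp [Fin.sum_univ_two, sq_abs]⟩

theorem ci_cont : Continuous ci := by
  unfold ci
  refine Continuous.subtype_mk ?_ _
  refine (PiLp.continuous_toLp 2 _).comp ?_
  refine continuous_pi fun i => ?_
  fin_cases i
  · exact Real.continuous_cos
  · exact Real.continuous_sin

/-- the cone over `A` -/
def co (A : Set (Sph 2)) : Set (E 2) := {x | 0 < ‖x‖ ∧ ‖x‖ < 1 ∧ ‖x‖⁻¹ • x ∈ Subtype.val '' A}

theorem co_meas {A : Set (Sph 2)} (hA : MeasurableSet A) : MeasurableSet (co A) := by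
  have h1 : MeasurableSet (Subtype.val '' A : Set (E 2)) :=
    (MeasurableEmbedding.subtype_coe isClosed_sphere.measurableSet).measurableSet_image.2 hA
  have h2 : Measurable fun x : E 2 => ‖x‖⁻¹ • x := by fun_prop
  have h3 : co A = {x | 0 < ‖x‖} ∩ ({x | ‖x‖ < 1} ∩ (fun x : E 2 => ‖x‖⁻¹ • x) ⁻¹'
      (Subtype.val '' A)) := by
    ext x
    rfl
  rw [h3]
  exact (measurableSet_lt measurable_const measurable_norm).inter
    ((measurableSet_lt measurable_norm measurable_const).inter (h2 h1))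

theorem co_eq (A : Set (Sph 2)) : Ioo (0 : ℝ) 1 • (Subtype.val '' A : Set (E 2)) = co A := by
  ext x
  constructor
  · rintro ⟨r, ⟨hr0, hr1⟩, y, ⟨a, ha, rfl⟩, rfl⟩
    have hn : ‖(a : E 2)‖ = 1 := by
      have := a.2
      rwa [mem_sphere_zero_iff_norm] at this
    have hn2 : ‖r • (a : E 2)‖ = r := by
      rw [norm_smul, hn, mul_one, Real.norm_of_nonneg hr0.le]
    show 0 < ‖r • (a : E 2)‖ ∧ ‖r • (a : E 2)‖ < 1 ∧ ‖r • (a : E 2)‖⁻¹ • (r • (a : E 2)) ∈ _
    rw [hn2, smul_smul, inv_mul_cancel₀ hr0.ne', one_smul]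
    exact ⟨hr0, hr1, a, ha, rfl⟩
  · rintro ⟨h0, h1, a, ha, hx⟩
    refine ⟨‖x‖, ⟨h0, h1⟩, a, ⟨a, ha, rfl⟩, ?_⟩
    show ‖x‖ • (a : E 2) = x
    rw [hx, smul_smul, mul_inv_cancel₀ h0.ne', one_smul]

theorem mp : MeasurePreserving (fun p : ℝ × ℝ => (!₂[p.1, p.2] : E 2)) := by
  have h1 := (volume_preserving_finTwoArrow ℝ).symm
  have h2 := (PiLp.volume_preserving_toLp (Fin 2)).comp h1
  exact h2

theorem lint_r : ∫⁻ r in Ioi (0 : ℝ), ENNReal.ofReal r * (Iio (1 : ℝ)).indicator 1 r =
    ENNReal.ofReal (1 / 2) := by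
  have h1 : ∀ r : ℝ, ENNReal.ofReal r * (Iio (1 : ℝ)).indicator (1 : ℝ → ℝ≥0∞) r =
      (Iio (1 : ℝ)).indicator (fun r => ENNReal.ofReal r) r := by
    intro r
    by_cases h : r ∈ Iio (1 : ℝ)
    · rw [indicator_of_mem h, indicator_of_mem h, Pi.one_apply, mul_one]
    · rw [indicator_of_notMem h, indicator_of_notMem h, mul_zero]
  simp_rw [h1]
  rw [lintegral_indicator measurableSet_Iio, Measure.restrict_restrict measurableSet_Iio,
    Iio_inter_Ioi, ← ofReal_integral_eq_lintegral_ofReal]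
  · congr 1
    rw [← integral_Ioc_eq_integral_Ioo, ← intervalIntegral.integral_of_le (by norm_num), integral_id]
    norm_num
  · exact (continuous_id.integrableOn_Icc (a := (0 : ℝ)) (b := 1)).mono_set Ioo_subset_Icc_self
  · filter_upwards [ae_restrict_mem measurableSet_Ioo] with r hr
    exact hr.1.le

theorem sig_apply (A : Set (Sph 2)) (hA : MeasurableSet A) :
    sig 2 A = (volume.restrict (Ioo (-Real.pi) Real.pi)) (ci ⁻¹' A) := by
  have hd : Module.finrank ℝ (E 2) = 2 := by simp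
  unfold Pool.Agent.H241R3.FV.sig
  rw [Measure.toSphere_apply' _ hA, co_eq, hd, ← lintegral_indicator_one (co_meas hA)]
  have hm : Measurable ((co A).indicator (1 : E 2 → ℝ≥0∞)) := measurable_one.indicator (co_meas hA)
  rw [← mp.lintegral_comp hm, ← lintegral_comp_polarCoord_symm, polarCoord_target]
  have hAm : MeasurableSet (ci ⁻¹' A) := ci_cont.measurable hA
  have e1 : ∫⁻ p in Ioi (0 : ℝ) ×ˢ Ioo (-Real.pi) Real.pi, ENNReal.ofReal p.1 •
      (co A).indicator (1 : E 2 → ℝ≥0∞) !₂[(polarCoord.symm p).1, (polarCoord.symm p).2] =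
      ∫⁻ p in Ioi (0 : ℝ) ×ˢ Ioo (-Real.pi) Real.pi,
        (ENNReal.ofReal p.1 * (Iio (1 : ℝ)).indicator 1 p.1) * (ci ⁻¹' A).indicator 1 p.2 := by
    refine setLIntegral_congr_fun (measurableSet_Ioi.prod measurableSet_Ioo) fun p hp => ?_
    have hp1 : 0 < p.1 := hp.1
    have e2 : (!₂[(polarCoord.symm p).1, (polarCoord.symm p).2] : E 2) = p.1 • (ci p.2 : E 2) := by
      rw [polarCoord_symm_apply]
      ext i
      fin_cases i <;> simp [ci]
    have hn : ‖p.1 • (ci p.2 : E 2)‖ = p.1 := by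
      have := (ci p.2).2
      rw [mem_sphere_zero_iff_norm] at this
      rw [norm_smul, this, mul_one, Real.norm_of_nonneg hp1.le]
    have h3 : p.1 • (ci p.2 : E 2) ∈ co A ↔ p.1 < 1 ∧ ci p.2 ∈ A := by
      show 0 < ‖_‖ ∧ ‖_‖ < 1 ∧ ‖_‖⁻¹ • _ ∈ _ ↔ _
      rw [hn, smul_smul, inv_mul_cancel₀ hp1.ne', one_smul]
      constructor
      · rintro ⟨_, h1, a, ha, hx⟩
        exact ⟨h1, by rwa [← Subtype.ext hx]⟩
      · rintro ⟨h1, h2⟩
        exact ⟨hp1, h1, _, h2, rfl⟩
    show ENNReal.ofReal p.1 • (co A).indicator (1 : E 2 → ℝ≥0∞)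
      !₂[(polarCoord.symm p).1, (polarCoord.symm p).2] = _
    rw [e2, smul_eq_mul]
    by_cases h1 : p.1 < 1
    · by_cases h2 : ci p.2 ∈ A
      · rw [indicator_of_mem (h3.2 ⟨h1, h2⟩), indicator_of_mem (show p.1 ∈ Iio (1 : ℝ) from h1),
          indicator_of_mem (show p.2 ∈ ci ⁻¹' A from h2)]
        simp
      · rw [indicator_of_notMem (fun h => h2 (h3.1 h).2),
          indicator_of_notMem (show p.2 ∉ ci ⁻¹' A from h2), mul_zero, mul_zero]
    · rw [indicator_of_notMem (fun h => h1 (h3.1 h).1),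
        indicator_of_notMem (show p.1 ∉ Iio (1 : ℝ) from h1), mul_zero, zero_mul]
  have e3 : (volume : Measure (ℝ × ℝ)).restrict (Ioi (0 : ℝ) ×ˢ Ioo (-Real.pi) Real.pi) =
      (volume.restrict (Ioi (0 : ℝ))).prod (volume.restrict (Ioo (-Real.pi) Real.pi)) := by
    rw [Measure.prod_restrict, Measure.volume_eq_prod]
  have e4 : ∫⁻ p : ℝ × ℝ, (ENNReal.ofReal p.1 * (Iio (1 : ℝ)).indicator 1 p.1) *
      (ci ⁻¹' A).indicator 1 p.2 ∂((volume.restrict (Ioi (0 : ℝ))).prod
        (volume.restrict (Ioo (-Real.pi) Real.pi))) =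
      (∫⁻ r in Ioi (0 : ℝ), ENNReal.ofReal r * (Iio (1 : ℝ)).indicator 1 r) *
        ∫⁻ u in Ioo (-Real.pi) Real.pi, (ci ⁻¹' A).indicator 1 u :=
    lintegral_prod_mul (f := fun r : ℝ => ENNReal.ofReal r * (Iio (1 : ℝ)).indicator 1 r)
      (g := (ci ⁻¹' A).indicator 1)
      (ENNReal.measurable_ofReal.mul (measurable_one.indicator measurableSet_Iio)).aemeasurable
      (measurable_one.indicator hAm).aemeasurable
  rw [e1, e3, e4, lint_r, lintegral_indicator_one hAm, ← mul_assoc]
  have : ((2 : ℕ) : ℝ≥0∞) * ENNReal.ofReal (1 / 2) = 1 := by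
    rw [show ((2 : ℕ) : ℝ≥0∞) = ENNReal.ofReal 2 by simp, ← ENNReal.ofReal_mul (by norm_num)]
    norm_num
  rw [this, one_mul]

theorem sig_eq : sig 2 = Measure.map ci (volume.restrict (Ioo (-Real.pi) Real.pi)) := by
  refine Measure.ext fun A hA => ?_
  rw [Measure.map_apply ci_cont.measurable hA]
  exact sig_apply A hA

theorem sg_int (f : Sph 2 → ℝ) (hf : Measurable f) :
    ∫ θ, f θ ∂(sg 2) = (2 * Real.pi)⁻¹ * ∫ u in (-Real.pi)..Real.pi, f (ci u) := by
  have h1 : sig 2 univ = ENNReal.ofReal (2 * Real.pi) := by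
    rw [sig_apply _ MeasurableSet.univ, preimage_univ, Measure.restrict_apply_univ, Real.volume_Ioo]
    congr 1
    ring
  unfold Pool.Agent.N526.CP.sg
  rw [integral_smul_measure, h1, sig_eq, integral_map ci_cont.measurable.aemeasurable
    hf.aestronglyMeasurable, ENNReal.toReal_inv, ENNReal.toReal_ofReal (by positivity), smul_eq_mul,
    intervalIntegral.integral_of_le (by linarith [Real.pi_pos]), integral_Ioc_eq_integral_Ioo]

/-! ### The sectors -/

variable {L : ℕ}

theorem sct_val (t : Fin L → ℝ) (w : E 2) :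
    (sct t w).val = ∑ i : Fin L, if t i * |w 0| ≤ |w 1| then 1 else 0 := by
  unfold Pool.Agent.N979.P1.sct
  show (Finset.univ.filter fun i => t i * |w 0| ≤ |w 1|).card = _
  exact Finset.card_filter _ _

theorem coord_meas (i : Fin 2) : Measurable fun w : E 2 => w i := by fun_prop

theorem sct_meas (t : Fin L → ℝ) : Measurable (sct t) := by
  have h1 : Measurable fun w : E 2 => (sct t w).val := by
    simp_rw [sct_val]
    refine Finset.measurable_sum _ fun i _ => ?_
    refine Measurable.ite (measurableSet_le ?_ ?_) measurable_const measurable_const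
    · exact ((coord_meas 0).abs).const_mul _
    · exact (coord_meas 1).abs
  refine measurable_to_countable' fun l => ?_
  have h2 : sct t ⁻¹' {l} = (fun w : E 2 => (sct t w).val) ⁻¹' {l.val} := by
    ext w
    simp [Fin.ext_iff]
  rw [h2]
  exact h1 (measurableSet_singleton _)

/-- the integrand -/
noncomputable def Q (t : Fin L → ℝ) (x y z w : Fin (L + 1) → ℝ) (v : E 2) : ℝ :=
  x (sct t v) * (v 0) ^ 2 + 2 * y (sct t v) * |v 0| * |v 1| + z (sct t v) * (v 1) ^ 2 + w (sct t v)

theorem comp_meas (t : Fin L → ℝ) (x : Fin (L + 1) → ℝ) : Measurable fun v : E 2 => x (sct t v) :=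
  (measurable_of_finite x).comp (sct_meas t)

theorem Q_meas (t : Fin L → ℝ) (x y z w : Fin (L + 1) → ℝ) : Measurable (Q t x y z w) := by
  unfold Q
  have h0 := coord_meas 0
  have h1 := coord_meas 1
  exact ((((comp_meas t x).mul (h0.pow_const 2)).add
    ((((comp_meas t y).const_mul 2).mul h0.abs).mul h1.abs)).add
      ((comp_meas t z).mul (h1.pow_const 2))).add (comp_meas t w)

theorem Q_even (t : Fin L → ℝ) (x y z w : Fin (L + 1) → ℝ) (v v' : E 2) (h0 : |v 0| = |v' 0|)
    (h1 : |v 1| = |v' 1|) : Q t x y z w v = Q t x y z w v' := by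
  have hs : sct t v = sct t v' := by
    apply Fin.ext
    rw [sct_val, sct_val, h0, h1]
  unfold Q
  rw [hs, h0, h1, ← sq_abs (v 0), ← sq_abs (v 1), ← sq_abs (v' 0), ← sq_abs (v' 1), h0, h1]

/-- the integrand as a function of the angle -/
noncomputable def G (t : Fin L → ℝ) (x y z w : Fin (L + 1) → ℝ) (u : ℝ) : ℝ :=
  Q t x y z w !₂[Real.cos u, Real.sin u]

theorem G_meas (t : Fin L → ℝ) (x y z w : Fin (L + 1) → ℝ) : Measurable (G t x y z w) := by
  have h : Measurable fun u : ℝ => (ci u : E 2) := measurable_subtype_coe.comp ci_cont.measurable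
  exact (Q_meas t x y z w).comp h

theorem G_bdd (t : Fin L → ℝ) (x y z w : Fin (L + 1) → ℝ) :
    ∃ C : ℝ, ∀ u, ‖G t x y z w u‖ ≤ C := by
  refine ⟨∑ l, |x l| + 2 * ∑ l, |y l| + ∑ l, |z l| + ∑ l, |w l|, fun u => ?_⟩
  obtain ⟨l, hl⟩ : ∃ l, l = sct t (!₂[Real.cos u, Real.sin u] : E 2) := ⟨_, rfl⟩
  have hx : ∀ x : Fin (L + 1) → ℝ, |x l| ≤ ∑ l, |x l| := fun x =>
    Finset.single_le_sum (f := fun l => |x l|) (fun _ _ => abs_nonneg _) (Finset.mem_univ l)
  have hc : |Real.cos u| ≤ 1 := Real.abs_cos_le_one u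
  have hs : |Real.sin u| ≤ 1 := Real.abs_sin_le_one u
  have hc2 : Real.cos u ^ 2 ≤ 1 := Real.cos_sq_le_one u
  have hs2 : Real.sin u ^ 2 ≤ 1 := Real.sin_sq_le_one u
  have e : G t x y z w u = x l * Real.cos u ^ 2 + 2 * y l * |Real.cos u| * |Real.sin u| +
      z l * Real.sin u ^ 2 + w l := by
    unfold G Q
    rw [← hl]
    simp
  rw [e, Real.norm_eq_abs]
  have b1 : |x l * Real.cos u ^ 2| ≤ |x l| := by
    rw [abs_mul, abs_of_nonneg (sq_nonneg (Real.cos u))]
    exact mul_le_of_le_one_right (abs_nonneg _) hc2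
  have b2 : |2 * y l * abs (Real.cos u) * abs (Real.sin u)| ≤ 2 * |y l| := by
    rw [abs_mul, abs_mul, abs_mul, abs_abs, abs_abs, abs_two, mul_assoc]
    exact mul_le_of_le_one_right (by positivity) (mul_le_one₀ hc (abs_nonneg _) hs)
  have b3 : |z l * Real.sin u ^ 2| ≤ |z l| := by
    rw [abs_mul, abs_of_nonneg (sq_nonneg (Real.sin u))]
    exact mul_le_of_le_one_right (abs_nonneg _) hs2
  have := abs_add_le (x l * Real.cos u ^ 2 + 2 * y l * |Real.cos u| * |Real.sin u| +
      z l * Real.sin u ^ 2) (w l)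
  have := abs_add_le (x l * Real.cos u ^ 2 + 2 * y l * |Real.cos u| * |Real.sin u|)
      (z l * Real.sin u ^ 2)
  have := abs_add_le (x l * Real.cos u ^ 2) (2 * y l * abs (Real.cos u) * abs (Real.sin u))
  linarith [hx x, hx y, hx z, hx w]

theorem G_int (t : Fin L → ℝ) (x y z w : Fin (L + 1) → ℝ) (a b : ℝ) :
    IntervalIntegrable (G t x y z w) volume a b := by
  obtain ⟨C, hC⟩ := G_bdd t x y z w
  rw [intervalIntegrable_iff]
  exact Measure.integrableOn_of_bounded (by simp) (G_meas t x y z w).aestronglyMeasurable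
    (Eventually.of_forall hC)

theorem G_pi (t : Fin L → ℝ) (x y z w : Fin (L + 1) → ℝ) :
    Function.Periodic (G t x y z w) Real.pi := by
  intro u
  unfold G
  apply Q_even <;> simp

theorem G_ref (t : Fin L → ℝ) (x y z w : Fin (L + 1) → ℝ) (u : ℝ) :
    G t x y z w (Real.pi - u) = G t x y z w u := by
  unfold G
  apply Q_even <;> simp

theorem G_four (t : Fin L → ℝ) (x y z w : Fin (L + 1) → ℝ) (φ : ℝ) :
    ∫ u in (-Real.pi)..Real.pi, G t x y z w (u - φ) =
      4 * ∫ u in (0 : ℝ)..(Real.pi / 2), G t x y z w u := by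
  have hp := G_pi t x y z w
  have hi := G_int t x y z w
  rw [intervalIntegral.integral_comp_sub_right (fun u => G t x y z w u)]
  have h1 : ∫ u in (-Real.pi - φ)..(Real.pi - φ), G t x y z w u =
      (∫ u in (-Real.pi - φ)..(-Real.pi - φ + Real.pi), G t x y z w u) +
      ∫ u in (-Real.pi - φ + Real.pi)..(-Real.pi - φ + Real.pi + Real.pi), G t x y z w u := by
    rw [intervalIntegral.integral_add_adjacent_intervals (hi _ _) (hi _ _)]
    congr 1
    ring
  have h2 : ∀ s, ∫ u in s..(s + Real.pi), G t x y z w u =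
      ∫ u in (0 : ℝ)..Real.pi, G t x y z w u := by
    intro s
    have := hp.intervalIntegral_add_eq s 0
    rwa [zero_add] at this
  have h3 : ∫ u in (0 : ℝ)..Real.pi, G t x y z w u =
      2 * ∫ u in (0 : ℝ)..(Real.pi / 2), G t x y z w u := by
    rw [← intervalIntegral.integral_add_adjacent_intervals (hi 0 (Real.pi / 2))
      (hi (Real.pi / 2) Real.pi)]
    have h4 := intervalIntegral.integral_comp_sub_left (a := 0) (b := Real.pi / 2)
      (fun u => G t x y z w u) Real.pi
    rw [show Real.pi - Real.pi / 2 = Real.pi / 2 by ring, sub_zero] at h4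
    rw [← h4]
    simp_rw [G_ref]
    ring
  rw [h1, h2, h2, h3]
  ring

/-- the ends of the sectors -/
noncomputable def en (t : Fin L → ℝ) (k : ℕ) : ℝ :=
  if k = 0 then 0 else if h : k - 1 < L then Real.arctan (t ⟨k - 1, h⟩) else Real.pi / 2

theorem en_zero (t : Fin L → ℝ) : en t 0 = 0 := rfl

theorem en_succ (t : Fin L → ℝ) (k : ℕ) (h : k < L) : en t (k + 1) = Real.arctan (t ⟨k, h⟩) := by
  unfold en
  rw [if_neg (by omega), dif_pos (show k + 1 - 1 < L by omega)]
  rfl

theorem en_last (t : Fin L → ℝ) : en t (L + 1) = Real.pi / 2 := by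
  unfold en
  rw [if_neg (by omega), dif_neg (by omega)]

/-- the primitives -/
noncomputable def cc (u : ℝ) : ℝ × ℝ × ℝ := (u, Real.sin u * Real.cos u, Real.sin u ^ 2)

theorem cc_arctan (τ : ℝ) :
    cc (Real.arctan τ) = (Real.arctan τ, τ / (1 + τ ^ 2), τ ^ 2 / (1 + τ ^ 2)) := by
  have h : (0 : ℝ) < 1 + τ ^ 2 := by positivity
  have h1 : √(1 + τ ^ 2) * √(1 + τ ^ 2) = 1 + τ ^ 2 := Real.mul_self_sqrt h.le
  have h2 : √(1 + τ ^ 2) ≠ 0 := (Real.sqrt_pos.2 h).ne'
  unfold cc
  rw [Real.sin_arctan, Real.cos_arctan]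
  refine Prod.ext rfl (Prod.ext ?_ ?_)
  · show τ / √(1 + τ ^ 2) * (1 / √(1 + τ ^ 2)) = τ / (1 + τ ^ 2)
    rw [div_mul_div_comm, mul_one, h1]
  · show (τ / √(1 + τ ^ 2)) ^ 2 = τ ^ 2 / (1 + τ ^ 2)
    rw [div_pow, Real.sq_sqrt h.le]

theorem lo_eq (t : Fin L → ℝ) (l : Fin (L + 1)) : lo3 t l = cc (en t l.val) := by
  unfold Pool.Agent.N979.P1.lo3
  by_cases h : 0 < l.val
  · rw [dif_pos h]
    have hlt : l.val - 1 < L := by omega
    have hen : en t l.val = Real.arctan (t ⟨l.val - 1, hlt⟩) := by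
      unfold en
      rw [if_neg (by omega), dif_pos hlt]
    rw [hen, cc_arctan]
  · rw [dif_neg h]
    have h0 : l.val = 0 := by omega
    rw [h0, en_zero]
    unfold cc
    simp

theorem up_eq (t : Fin L → ℝ) (l : Fin (L + 1)) : up3 t l = cc (en t (l.val + 1)) := by
  unfold Pool.Agent.N979.P1.up3
  by_cases h : l.val < L
  · rw [dif_pos h, en_succ t l.val h, cc_arctan]
  · rw [dif_neg h]
    have h0 : l.val = L := by omega
    rw [h0, en_last]
    unfold cc
    simp

theorem sector (t : Fin L → ℝ) (ht : ∀ i, 0 < t i) (hm : StrictMono t) (l : Fin (L + 1)) (u : ℝ)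
    (hu : u ∈ Ioo (en t l.val) (en t (l.val + 1))) :
    0 < u ∧ u < Real.pi / 2 ∧ sct t (!₂[Real.cos u, Real.sin u] : E 2) = l := by
  have h0 : 0 < u := by
    refine lt_of_le_of_lt ?_ hu.1
    rcases Nat.eq_zero_or_pos l.val with h | h
    · rw [h, en_zero]
    · obtain ⟨k, hk⟩ : ∃ k, l.val = k + 1 := ⟨l.val - 1, by omega⟩
      rw [hk, en_succ t k (by omega)]
      exact (Real.arctan_pos.2 (ht _)).le
  have h1 : u < Real.pi / 2 := by
    refine lt_of_lt_of_le hu.2 ?_
    by_cases h : l.val < L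
    · rw [en_succ t _ h]
      exact (Real.arctan_lt_pi_div_two _).le
    · have h2 : l.val = L := by omega
      rw [h2, en_last]
  refine ⟨h0, h1, ?_⟩
  have hc : 0 < Real.cos u := Real.cos_pos_of_mem_Ioo ⟨by linarith, h1⟩
  have hs : 0 < Real.sin u := Real.sin_pos_of_pos_of_lt_pi h0 (by linarith)
  have key : ∀ i : Fin L, (t i * |(!₂[Real.cos u, Real.sin u] : E 2) 0| ≤
      |(!₂[Real.cos u, Real.sin u] : E 2) 1|) ↔ i.val < l.val := by
    intro i
    have e0 : |(!₂[Real.cos u, Real.sin u] : E 2) 0| = Real.cos u := by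
      simp [abs_of_pos hc]
    have e1 : |(!₂[Real.cos u, Real.sin u] : E 2) 1| = Real.sin u := by
      simp [abs_of_pos hs]
    rw [e0, e1, ← le_div_iff₀ hc, ← Real.tan_eq_sin_div_cos]
    have e2 : t i ≤ Real.tan u ↔ Real.arctan (t i) ≤ u := by
      conv_rhs => rw [← Real.arctan_tan (x := u) (by linarith) h1]
      exact Real.arctan_strictMono.le_iff_le.symm
    rw [e2]
    constructor
    · intro h
      by_contra hc2
      have h3 : l.val < L := by omega
      have h4 := hu.2
      rw [en_succ t _ h3] at h4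
      have h5 : Real.arctan (t ⟨l.val, h3⟩) ≤ Real.arctan (t i) :=
        Real.arctan_strictMono.monotone (hm.monotone (Fin.le_def.2 (by simp; omega)))
      linarith
    · intro h
      obtain ⟨k, hk⟩ : ∃ k, l.val = k + 1 := ⟨l.val - 1, by omega⟩
      have h4 := hu.1
      rw [hk, en_succ t k (by omega)] at h4
      have h5 : Real.arctan (t i) ≤ Real.arctan (t ⟨k, by omega⟩) :=
        Real.arctan_strictMono.monotone (hm.monotone (Fin.le_def.2 (by simp; omega)))
      linarith
  apply Fin.ext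
  rw [sct_val]
  have hf : ∀ i : Fin L, (if t i * |(!₂[Real.cos u, Real.sin u] : E 2) 0| ≤
      |(!₂[Real.cos u, Real.sin u] : E 2) 1| then 1 else 0 : ℕ) =
      if (i : ℕ) < l.val then 1 else 0 := fun i => if_congr (key i) rfl rfl
  rw [Finset.sum_congr rfl fun i _ => hf i, ← Finset.card_filter, Fin.card_filter_val_lt]
  exact min_eq_right (by omega)

theorem en_mono (t : Fin L → ℝ) (ht : ∀ i, 0 < t i) (hm : StrictMono t) (l : Fin (L + 1)) :
    en t l.val ≤ en t (l.val + 1) := by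
  rcases Nat.eq_zero_or_pos l.val with h | h
  · rw [h, en_zero]
    by_cases h2 : 0 < L
    · rw [en_succ t 0 h2]
      exact (Real.arctan_pos.2 (ht _)).le
    · have h3 : L = 0 := by omega
      subst h3
      rw [en_last]
      positivity
  · obtain ⟨k, hk⟩ : ∃ k, l.val = k + 1 := ⟨l.val - 1, by omega⟩
    rw [hk, en_succ t k (by omega)]
    by_cases h2 : k + 1 < L
    · rw [en_succ t (k + 1) h2]
      exact Real.arctan_strictMono.monotone (hm.monotone (Fin.le_def.2 (by simp)))
    · have h3 : k + 1 = L := by omega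
      rw [h3, en_last]
      exact (Real.arctan_lt_pi_div_two _).le

theorem sec_int (t : Fin L → ℝ) (ht : ∀ i, 0 < t i) (hm : StrictMono t)
    (x y z w : Fin (L + 1) → ℝ) (l : Fin (L + 1)) :
    ∫ u in (en t l.val)..(en t (l.val + 1)), G t x y z w u =
      x l * Icc2 t l + 2 * y l * Ics2 t l + z l * Iss2 t l + w l * Dl t l := by
  have h1 : ∫ u in (en t l.val)..(en t (l.val + 1)), G t x y z w u =
      ∫ u in (en t l.val)..(en t (l.val + 1)), (x l * Real.cos u ^ 2 +
        2 * y l * (Real.sin u * Real.cos u) + z l * Real.sin u ^ 2 + w l) := by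
    refine intervalIntegral.integral_congr_Ioo_of_le (en_mono t ht hm l) fun u hu => ?_
    obtain ⟨h0, h1, h2⟩ := sector t ht hm l u hu
    have hc : 0 < Real.cos u := Real.cos_pos_of_mem_Ioo ⟨by linarith, h1⟩
    have hs : 0 < Real.sin u := Real.sin_pos_of_pos_of_lt_pi h0 (by linarith)
    show Q t x y z w _ = _
    unfold Q
    rw [h2]
    have e0 : (!₂[Real.cos u, Real.sin u] : E 2) 0 = Real.cos u := by simp
    have e1 : (!₂[Real.cos u, Real.sin u] : E 2) 1 = Real.sin u := by simp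
    rw [e0, e1, abs_of_pos hc, abs_of_pos hs]
    ring
  have c1 : Continuous fun u : ℝ => x l * Real.cos u ^ 2 := by fun_prop
  have c2 : Continuous fun u : ℝ => 2 * y l * (Real.sin u * Real.cos u) := by fun_prop
  have c3 : Continuous fun u : ℝ => z l * Real.sin u ^ 2 := by fun_prop
  have c4 : Continuous fun u : ℝ => w l := by fun_prop
  have c12 : Continuous fun u : ℝ => x l * Real.cos u ^ 2 +
      2 * y l * (Real.sin u * Real.cos u) := by fun_prop
  have c123 : Continuous fun u : ℝ => x l * Real.cos u ^ 2 +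
      2 * y l * (Real.sin u * Real.cos u) + z l * Real.sin u ^ 2 := by fun_prop
  rw [h1, intervalIntegral.integral_add (c123.intervalIntegrable _ _)
      (c4.intervalIntegrable _ _),
    intervalIntegral.integral_add (c12.intervalIntegrable _ _) (c3.intervalIntegrable _ _),
    intervalIntegral.integral_add (c1.intervalIntegrable _ _) (c2.intervalIntegrable _ _),
    intervalIntegral.integral_const_mul, intervalIntegral.integral_const_mul,
    intervalIntegral.integral_const_mul, intervalIntegral.integral_const, integral_cos_sq,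
    integral_sin_mul_cos₁, integral_sin_sq]
  unfold Pool.Agent.N979.P1.Icc2 Pool.Agent.N979.P1.Ics2 Pool.Agent.N979.P1.Iss2
    Pool.Agent.N979.P1.Dl
  rw [lo_eq, up_eq]
  unfold cc
  simp only [smul_eq_mul]
  ring

theorem main : S_SEC := by
  intro L t ht hm e x y z w
  -- the angle of `e`
  obtain ⟨φ, hφ0, hφ1⟩ : ∃ φ : ℝ, (e : E 2) 0 = Real.cos φ ∧ (e : E 2) 1 = Real.sin φ := by
    have hn : ‖(e : E 2)‖ = 1 := by
      have := e.2
      rwa [mem_sphere_zero_iff_norm] at this
    have hn2 : (e : E 2) 0 ^ 2 + (e : E 2) 1 ^ 2 = 1 := by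
      have h1 := EuclideanSpace.real_norm_sq_eq (e : E 2)
      rw [hn, Fin.sum_univ_two] at h1
      linarith
    obtain ⟨ζ, hζ⟩ : ∃ ζ : ℂ, ζ = ⟨(e : E 2) 0, (e : E 2) 1⟩ := ⟨_, rfl⟩
    have h2 : ‖ζ‖ = 1 := by
      rw [Complex.norm_eq_sqrt_sq_add_sq, hζ, hn2, Real.sqrt_one]
    have h3 : ζ ≠ 0 := by
      intro h
      rw [h, norm_zero] at h2
      norm_num at h2
    refine ⟨Complex.arg ζ, ?_, ?_⟩
    · rw [Complex.cos_arg h3, h2, div_one, hζ]
    · rw [Complex.sin_arg, h2, div_one, hζ]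
  have hQ : ∀ u : ℝ, Q t x y z w (Ax (ci u) (e : E 2)) = G t x y z w (u - φ) := by
    intro u
    unfold G
    apply Q_even
    · have : (Ax (ci u) (e : E 2)) 0 = Real.cos (u - φ) := by
        unfold Pool.Agent.N979.P1.Ax ci
        simp only [PiLp.inner_apply, Fin.sum_univ_two]
        simp [hφ0, hφ1, Real.cos_sub]
      rw [this]
      simp
    · have : (Ax (ci u) (e : E 2)) 1 = -Real.sin (u - φ) := by
        unfold Pool.Agent.N979.P1.Ax ci Pool.Agent.N979.P1.Jr
        simp only [PiLp.inner_apply, Fin.sum_univ_two]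
        simp [hφ0, hφ1, Real.sin_sub]
        ring
      rw [this]
      simp
  have hAx : Measurable fun θ : Sph 2 => Ax θ (e : E 2) := by
    unfold Pool.Agent.N979.P1.Ax Pool.Agent.N979.P1.Jr
    refine (PiLp.continuous_toLp 2 _).measurable.comp ?_
    refine measurable_pi_iff.2 fun i => ?_
    fin_cases i
    · exact (continuous_const.inner continuous_subtype_val).measurable
    · refine (continuous_const.inner ?_).measurable
      refine (PiLp.continuous_toLp 2 _).comp ?_
      refine continuous_pi fun j => ?_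
      fin_cases j
      · show Continuous fun θ : Sph 2 => -((θ : E 2) 1)
        fun_prop
      · show Continuous fun θ : Sph 2 => (θ : E 2) 0
        fun_prop
  have h1 := sg_int (fun θ => Q t x y z w (Ax θ (e : E 2))) ((Q_meas t x y z w).comp hAx)
  show ∫ θ, Q t x y z w (Ax θ (e : E 2)) ∂(sg 2) = _
  rw [h1]
  simp_rw [hQ]
  rw [G_four]
  have h2 : ∫ u in (0 : ℝ)..(Real.pi / 2), G t x y z w u =
      ∑ l, (x l * Icc2 t l + 2 * y l * Ics2 t l + z l * Iss2 t l + w l * Dl t l) := by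
    have h3 := intervalIntegral.sum_integral_adjacent_intervals (μ := volume)
      (f := G t x y z w) (a := en t) (n := L + 1) fun k _ => G_int t x y z w _ _
    rw [en_zero, en_last] at h3
    rw [← h3, Finset.sum_range]
    exact Finset.sum_congr rfl fun l _ => sec_int t ht hm x y z w l
  rw [h2, ← mul_assoc]
  congr 1
  have := Real.pi_pos.ne'
  field_simp
  norm_num

end Pool.Agent.N250.P1SEC
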